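import Pool.Agent.Helper28.WK.Defs

/-!
# All weights (project WK): newforms of weight `k` and level `p^n`, central values

Part 1: the modular forms side, for any weight `k : ℤ` (`0 < k`) and prime `p`. Part 2: Eichler
potentials. The definitions with the letter `K` are those of `Helper14/CV/Defs.lean` for weight `k`.
-/

set_option autoImplicit false

open UpperHalfPlane CongruenceSubgroup
open scoped MatrixGroups

namespace Pool.Agent.Helper14.WK

open Pool.Agent.Helper14.CV (G0 Homog EqC act)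

/-! ### Part 1: modular forms -/

/-- The Fourier coefficient `a_m(f)`, where `f(z) = ∑ a_m(f) e^{2 π i m z}`. -/
noncomputable def fcK {N : ℕ} {k : ℤ} (f : CuspForm (G0 N) k) (m : ℕ) : ℂ :=
  (UpperHalfPlane.qExpansion (1 : ℝ) (f : ℍ → ℂ)).coeff m

/-- `f` is an eigenform of the Hecke operator `T_l` of weight `k` (`l` not dividing the level)
with eigenvalue `lam`: `T_l` maps `∑ a_m q^m` to `∑ (a_{lm} + l^(k-1) a_{m/l}) q^m`. -/
def HeckeEigK {N : ℕ} {k : ℤ} (f : CuspForm (G0 N) k) (l : ℕ) (lam : ℂ) : Prop :=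
  ∀ m : ℕ, fcK f (l * m) + (if l ∣ m then (l : ℂ) ^ (k - 1) * fcK f (m / l) else 0) = lam * fcK f m

/-- `f` is a newform of weight `k`, level `p^n` (`p` prime) and trivial character: it is a cusp form
on `Γ₀(p^n)` with first coefficient `1`, an eigenform of all Hecke operators `T_l`, `l ≠ p` prime,
and of `U_p`, and its eigenvalues at the primes `l ≠ p` do not come from the lower level `p^(n-1)`
(no nonzero cusp form on `Γ₀(p^(n-1))` has the same eigenvalues at all primes `l ≠ p`). -/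
structure IsNewformK (p n : ℕ) {k : ℤ} (f : CuspForm (G0 (p ^ n)) k) : Prop where
  normalised : fcK f 1 = 1
  hecke : ∀ l : ℕ, l.Prime → l ≠ p → HeckeEigK f l (fcK f l)
  hecke_p : ∀ m : ℕ, fcK f (p * m) = fcK f p * fcK f m
  new : ∀ g : CuspForm (G0 (p ^ (n - 1))) k,
    (∀ l : ℕ, l.Prime → l ≠ p → HeckeEigK g l (fcK f l)) → g = 0

/-- The `L`-function of `f` in the analytic normalisation (centre `1/2`): the entire continuation of
`∑ a_m(f) m^{-(k-1)/2} m^{-s}`. It is Mathlib's `L`-function of the modular form `f` (whose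
centre is `k/2`) at the point `s + (k-1)/2`. -/
noncomputable def LanK {N : ℕ} [NeZero N] {k : ℤ} (hk : 0 < k) (f : CuspForm (G0 N) k)
    (s : ℂ) : ℂ :=
  ModularForm.L hk f (s + (k - 1) / 2)

/-- The completed function `Λ(s,f) = (√N/2π)^s Γ(s + (k-1)/2) L(s,f)` of a form of level `N`. -/
noncomputable def LamK {N : ℕ} [NeZero N] {k : ℤ} (hk : 0 < k) (f : CuspForm (G0 N) k)
    (s : ℂ) : ℂ :=
  ((Real.sqrt N / (2 * Real.pi) : ℝ) : ℂ) ^ s * Complex.Gamma (s + (k - 1) / 2) * LanK hk f s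

/-- The root number of `f` is `+1`: `Λ(s,f) = Λ(1-s,f)` in the strip where neither Gamma factor has a
pole (at the poles Lean's function `Complex.Gamma` is `0`, so the equation cannot be required for
all `s`). -/
def RootOneK {N : ℕ} [NeZero N] {k : ℤ} (hk : 0 < k) (f : CuspForm (G0 N) k) : Prop :=
  ∀ s : ℂ, -((k : ℝ) - 1) / 2 < s.re → s.re < ((k : ℝ) + 1) / 2 → LamK hk f s = LamK hk f (1 - s)

/-! ### Part 2: Eichler potentials -/

/-- The value of `f` at the complex number `z`. -/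
noncomputable def fzK {N : ℕ} {k : ℤ} (f : CuspForm (G0 N) k) (z : ℂ) : ℂ :=
  f (UpperHalfPlane.ofComplex z)

/-- The `i`-fold primitive `∑ a_m (2 π i m)^{-i} e^{2 π i m z}` of `f`. -/
noncomputable def FpK {N : ℕ} {k : ℤ} (f : CuspForm (G0 N) k) (i : ℕ) (z : ℂ) : ℂ :=
  ∑' m : ℕ, fcK f m / (2 * Real.pi * Complex.I * m) ^ i * Complex.exp (2 * Real.pi * Complex.I * m * z)

/-- The primitive of `f(z) z^j` which vanishes at `i∞`. -/
noncomputable def EK {N : ℕ} {k : ℤ} (f : CuspForm (G0 N) k) (j : ℕ) (z : ℂ) : ℂ :=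
  ∑ i ∈ Finset.range (j + 1), (-1) ^ i * (j.descFactorial i : ℂ) * z ^ (j - i) * FpK f (i + 1) z

/-- The primitive of `f(z) P(z)`, `P` an integral polynomial, which vanishes at `i∞`. -/
noncomputable def prE {N : ℕ} {k : ℤ} (f : CuspForm (G0 N) k) (P : Polynomial ℤ) (z : ℂ) : ℂ :=
  P.sum fun i c => (c : ℂ) * EK f i z

/-- `I` is the family of Eichler potentials of `f` (weight `2A + 2`): for `j ≤ 2A` the value `I a c j`
is the limit of `EK f j` at the cusp `a/c`, along every path `(a (x+iy) + b)/(c (x+iy) + d)`,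
`y → ∞`, where `ad - bc > 0`; that is, `I p q j = ∫_{i∞}^{p/q} f(z) z^j dz`. -/
def IsPotK {N : ℕ} {k : ℤ} (A : ℕ) (f : CuspForm (G0 N) k) (I : ℤ → ℤ → ℕ → ℂ) : Prop :=
  ∀ (a b c d : ℤ), 0 < a * d - b * c → ∀ j : ℕ, j ≤ 2 * A → ∀ x : ℝ,
    Filter.Tendsto (fun y : ℝ => EK f j ((a * (x + y * Complex.I) + b) /
      (c * (x + y * Complex.I) + d))) Filter.atTop (nhds (I a c j))

/-- The polynomial `(a X + b)^j (c X + d)^(2A-j)`. -/
noncomputable def mp (A : ℕ) (a b c d : ℤ) (j : ℕ) : Polynomial ℤ :=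
  (Polynomial.C a * Polynomial.X + Polynomial.C b) ^ j *
    (Polynomial.C c * Polynomial.X + Polynomial.C d) ^ (2 * A - j)

end Pool.Agent.Helper14.WK
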