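import Pool.Agent.Helper14.WK.Defs

/-!
# Project WK: analytic statements for weight `k = 2A + 2`, level `p^n`

Everywhere `z : ℂ` lies in the upper half plane (`0 < z.im`), `fzK f z` is the value of `f` at `z`.
Models: the modules of project CV with the same letters (`Pool/Agent/Helper*/CV/M_A1.lean` etc.,
statements in `Helper14/CV/StA.lean`) for weight `2`.
-/

set_option autoImplicit false

open UpperHalfPlane CongruenceSubgroup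
open scoped MatrixGroups

namespace Pool.Agent.Helper14.WK

open Pool.Agent.Helper14.CV (G0 Homog EqC act)
open Pool.Agent.Helper28.WK (pr cp WT)

/-- KA1. The series of `f` and of its iterated primitives converge on the upper half plane; `FpK f 0` is
`f`, the derivative of `FpK f (i+1)` is `FpK f i`. Proof: as CV A1 (`Pool.Agent.Helper7.CV.hA1`): `fcK f m = O(m^(k/2))` by
`CuspFormClass.qExpansion_isBigO` (width `1`: `strictWidthInfty_Gamma0`), `hasSum_qExpansion`, `fcK f 0 = 0`; differentiate term by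
term (`hasDerivAt_tsum_of_isPreconnected` on `{z | t < z.im}`, terms bounded by `C m^K exp(-2 π m t)`). -/
def SKA1 : Prop := ∀ (N : ℕ) (_ : NeZero N) (k : ℤ) (f : CuspForm (G0 N) k) (z : ℂ), 0 < z.im →
  fcK f 0 = 0 ∧
  (∀ i : ℕ, Summable fun m : ℕ => fcK f m / (2 * Real.pi * Complex.I * m) ^ i *
    Complex.exp (2 * Real.pi * Complex.I * m * z)) ∧
  (HasSum (fun m : ℕ => fcK f m * Complex.exp (2 * Real.pi * Complex.I * m * z)) (fzK f z)) ∧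
  FpK f 0 z = fzK f z ∧ ∀ i : ℕ, HasDerivAt (FpK f (i + 1)) (FpK f i z) z

/-- KA1b. Decay: `‖FpK f i z‖ ≤ C exp(-2 π Im z)` for `1 ≤ Im z` (bound the series termwise; `fcK f 0 = 0`), so
`‖EK f j z‖ ≤ C (1 + ‖z‖)^j exp(-2 π Im z)`. Model: CV A1b (`Pool.Agent.Helper10.CV.hA1b`). -/
def SKA1b : Prop := ∀ (N : ℕ) (_ : NeZero N) (k : ℤ) (f : CuspForm (G0 N) k) (j : ℕ), ∃ C : ℝ, ∀ z : ℂ,
  1 ≤ z.im → ‖EK f j z‖ ≤ C * (1 + ‖z‖) ^ j * Real.exp (-2 * Real.pi * z.im)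

/-- KE (from KA1). `EK f j` is a primitive of `f(z) z^j`, `prE f P` of `f(z) P(z)`. Proof: product rule; with `D = descFactorial`, the term
`(-1)^i D(j,i) ((j-i) z^(j-i-1) F_{i+1} + z^(j-i) F_i)`, `D(j,i+1) = D(j,i) (j-i)`, the sum telescopes to `z^j F_0`. `P.sum` is a finite sum (`Polynomial.sum_def`,
`Polynomial.eval₂_eq_sum`). -/
def SKE : Prop := ∀ (N : ℕ) (_ : NeZero N) (k : ℤ) (f : CuspForm (G0 N) k) (z : ℂ), 0 < z.im →
  (∀ j : ℕ, HasDerivAt (EK f j) (fzK f z * z ^ j) z) ∧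
  (∀ P : Polynomial ℤ, HasDerivAt (prE f P) (fzK f z * (Polynomial.aeval z P)) z)

/-- KA3 (from KE). Transformation of the primitives. If `f(Mz) = κ (cz+d)^(2A+2) f(z)`, `M = (a b; c d)`, `D = ad - bc > 0`, then `EK f j (M z)` and
`κ D prE f ((aX+b)^j (cX+d)^(2A-j)) z` (`j ≤ 2A`) have the same derivative `κ D (az+b)^j (cz+d)^(2A-j) f(z)` on the upper half plane (convex), so they differ by a
constant. (`cz + d ≠ 0`.) Model: CV A3 (`Pool.Agent.Helper72.CV.hA3`, `hA3W`). -/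
def SKA3 : Prop := ∀ (N : ℕ) (_ : NeZero N) (A : ℕ) (f : CuspForm (G0 N) (2 * A + 2)) (a b c d : ℤ) (κ : ℂ),
  0 < a * d - b * c →
  (∀ z : ℂ, 0 < z.im → fzK f ((a * z + b) / (c * z + d)) = κ * (c * z + d) ^ (2 * A + 2) * fzK f z) →
  ∀ j : ℕ, j ≤ 2 * A → ∃ C : ℂ, ∀ z : ℂ, 0 < z.im →
    EK f j ((a * z + b) / (c * z + d)) = κ * (a * d - b * c : ℤ) * prE f (mp A a b c d j) z + C

/-- KMOD. The modular transformation law for `fzK`, in coordinates. (`SlashInvariantForm.slash_action_eqn` and `Γ₀(N)` in `GL₂(ℝ)`; compare the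
beginning of `Pool.Agent.Helper72.CV.hA3`.) -/
def SKMod : Prop := ∀ (N : ℕ) (_ : NeZero N) (A : ℕ) (f : CuspForm (G0 N) (2 * A + 2)) (a b c d : ℤ),
  a * d - b * c = 1 → (N : ℤ) ∣ c → ∀ z : ℂ, 0 < z.im →
    fzK f ((a * z + b) / (c * z + d)) = (c * z + d) ^ (2 * A + 2) * fzK f z

/-- KA4 (from KA1b, KE). Limits at the cusps. Proof as CV A4 (`Pool.Agent.Helper26.CV.hA4`): (i) for `γ = (a b; c d)` in `SL₂(ℤ)` the function
`H(w) = EK f j (γ w)` has derivative `(f|γ)(w) (aw+b)^j (cw+d)^(2A-j)` (weight `2A+2`), bounded by `C (1+‖w‖)^(2A) exp(-c Im w)` for large `Im w` (exponential decay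
of the cusp form `CuspForm.translate f γ`: `CuspFormClass.exp_decay_atImInfty'`); so the limit for `y → ∞` exists and does not depend on `x`. (ii) a general
integral matrix with `ad - bc > 0` is `γ (α β; 0 δ)`, `α, δ > 0` after a sign. (iii) it depends only on `(a, c)`. (iv) for `(1, 0)` it is `0` by KA1b. -/
def SKA4 : Prop := ∀ (N : ℕ) (_ : NeZero N) (A : ℕ) (f : CuspForm (G0 N) (2 * A + 2)),
  ∃ I : ℤ → ℤ → ℕ → ℂ, IsPotK A f I ∧ ∀ j : ℕ, j ≤ 2 * A → I 1 0 j = 0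

/-- KP1. Homogeneity. Model: CV P1 (`Pool.Agent.Helper87.CV.hP1`). -/
def SKP1 : Prop := ∀ (N : ℕ) (_ : NeZero N) (A : ℕ) (f : CuspForm (G0 N) (2 * A + 2)) (I : ℤ → ℤ → ℕ → ℂ),
  IsPotK A f I → ∀ j : ℕ, j ≤ 2 * A → Homog (cp I j)

/-- KP2 (from KA3, KP1). The transformation law of the potentials: pass to the limit in KA3 (`mp` has degree at most `2A`, so only `I p q i` with `i ≤ 2A` occur).
Take `z = (p (x+iy) + b')/(q (x+iy) + d')` with `p d' - q b' > 0` (for coprime `p, q`, or any `(p,q) ≠ 0` with the gcd as determinant). Models: CV P2, P4. -/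
def SKP2 : Prop := ∀ (N : ℕ) (_ : NeZero N) (A : ℕ) (f : CuspForm (G0 N) (2 * A + 2)) (I : ℤ → ℤ → ℕ → ℂ)
  (a b c d : ℤ) (κ : ℂ), IsPotK A f I → 0 < a * d - b * c →
  (∀ z : ℂ, 0 < z.im → fzK f ((a * z + b) / (c * z + d)) = κ * (c * z + d) ^ (2 * A + 2) * fzK f z) →
  ∀ j : ℕ, j ≤ 2 * A → ∃ C : ℂ, ∀ p q : ℤ, (p ≠ 0 ∨ q ≠ 0) →
    I (a * p + b * q) (c * p + d * q) j = κ * (a * d - b * c : ℤ) * pr I (mp A a b c d j) p q + C

/-- KH1 (from KA1). The Hecke relation for `f`: for `m` prime to `l` the numbers `m j`, `0 ≤ j < l`, are all residues modulo `l` and `f(z+1) = f(z)`; insert the series,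
`∑_{j<l} exp(2 π i r (z+mj)/l) = l exp(2 π i (r/l) z)` if `l ∣ r` and `0` otherwise. Second part: the converse (uniqueness of the coefficients).
Models: CV A2, A2c (`Pool.Agent.Helper55.CV.hA2`, `Pool.Agent.Helper71.CV.hA2c`). -/
def SKH1 : Prop := ∀ (N : ℕ) (_ : NeZero N) (k : ℤ) (f : CuspForm (G0 N) k) (l : ℕ) (lam : ℂ), 0 < l →
  (HeckeEigK f l lam → ∀ m : ℤ, IsCoprime m (l : ℤ) → ∀ z : ℂ, 0 < z.im →
    (l : ℂ) ^ (k - 1) * fzK f (l * z) + (l : ℂ)⁻¹ * ∑ j ∈ Finset.range l, fzK f ((z + m * j) / l) =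
      lam * fzK f z) ∧
  ((∀ z : ℂ, 0 < z.im → (l : ℂ) ^ (k - 1) * fzK f (l * z) +
    (l : ℂ)⁻¹ * ∑ j ∈ Finset.range l, fzK f ((z + j) / l) = lam * fzK f z) → HeckeEigK f l lam)

/-- KH2 (from KH1, KE, KA1b). The Hecke relation for the primitives: both sides have the derivative `lam z^i f(z)`
(`prE f (mp A l (-mj) 0 1 i) ((z+mj)/l)` has derivative `(1/l) f((z+mj)/l) z^i`, `l^(2A-i) EK f i (l z)` has derivative `l^(2A+1) z^i f(lz)`), and both tend to `0` for `z = iy`,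
`y → ∞`. -/
def SKH2 : Prop := ∀ (N : ℕ) (_ : NeZero N) (A : ℕ) (f : CuspForm (G0 N) (2 * A + 2)) (l : ℕ) (lam : ℂ) (m : ℤ),
  0 < l → HeckeEigK f l lam → IsCoprime m (l : ℤ) → ∀ i : ℕ, i ≤ 2 * A → ∀ z : ℂ, 0 < z.im →
  (l : ℂ) ^ (2 * A - i) * EK f i (l * z) +
    ∑ j ∈ Finset.range l, prE f (mp A l (-(m * j)) 0 1 i) ((z + m * j) / l) = lam * EK f i z

/-- KH3 (from KH2). The Hecke relation for the potentials (pass to the limit), with the operator `WT` of `Helper28/WK/Defs.lean` (`WT` uses the polynomial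
`(l X - m j)^i`, which is `mp A l (-(mj)) 0 1 i`). Model: CV P3 (`Pool.Agent.Helper86.CV.hP3`). -/
def SKH3 : Prop := ∀ (N : ℕ) (_ : NeZero N) (A : ℕ) (f : CuspForm (G0 N) (2 * A + 2)) (I : ℤ → ℤ → ℕ → ℂ)
  (l : ℕ) (lam : ℂ) (m : ℤ), IsPotK A f I → 0 < l → HeckeEigK f l lam → IsCoprime m (l : ℤ) →
  ∀ i : ℕ, i ≤ 2 * A → ∀ p q : ℤ, (p ≠ 0 ∨ q ≠ 0) → WT A l m I p q i = lam * I p q i

/-- KA8. The functional equation with sign `+1` gives `f(-1/(Nz)) = (-1)^(A+1) N^(A+1) z^(2A+2) f(z)`. Proof as CV A8 (`Pool.Agent.Helper21.CV.hA8`): let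
`g(z) = (-1)^(A+1) N^(-A-1) z^(-2A-2) f(-1/(Nz))`; the substitution `t → 1/(Nt)` in the Mellin integral of `t ↦ f(it)` (`(-1)^(A+1) = i^(2A+2)`) turns `Λ(f, 1-s)` into `Λ(g, s)`; Mellin
inversion on the line `Re s = 1/2` gives `f(it) = g(it)`, then everywhere. -/
def SKA8 : Prop := ∀ (N : ℕ) (_ : NeZero N) (A : ℕ) (hk : 0 < (2 * A + 2 : ℤ))
  (f : CuspForm (G0 N) (2 * A + 2)), RootOneK hk f → ∀ z : ℂ, 0 < z.im →
  fzK f (-1 / (N * z)) = (-1) ^ (A + 1) * (N : ℂ) ^ (A + 1) * z ^ (2 * A + 2) * fzK f z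

/-- KN2. The trace of `f` from level `pM` to level `M`, `p ∣ M`, as a cusp form: `Γ₀(M)` is the union of `Γ₀(pM) (1 0; iM 1)`, `0 ≤ i < p`. Models: CV N2
(`Pool.Agent.Helper99.CV.hN2`) and its copy for `3` in project W3 (`M_N2`). -/
def SKN2 : Prop := ∀ (p M : ℕ) (_ : NeZero M) (_ : NeZero (p * M)) (A : ℕ)
  (f : CuspForm (G0 (p * M)) (2 * A + 2)), p.Prime → p ∣ M →
  ∃ g : CuspForm (G0 M) (2 * A + 2), ∀ z : ℂ, 0 < z.im →
    fzK g z = ∑ i ∈ Finset.range p, ((i * M * z + 1) ^ (2 * A + 2))⁻¹ * fzK f (z / (i * M * z + 1))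

/-- KN3 (from KH1, KMOD, `StN1` of CV: `Pool.Agent.Helper10.CV.hN1`). The trace commutes with `T_l`, `l ≠ p` prime. Proof without primitives: for a matrix `δ = (a b; c d)` of determinant
`l` put `(f|δ)(z) = l^(k-1) (cz+d)^(-k) f(δz)`, `k = 2A+2`; `T_l f = ∑_P f|δ_P` for the standard family (KH1, `m = 1`) and so for every family as in `StN1` (`f|(γδ) = f|δ` for `γ` in
`Γ₀(pM)`, KMOD). With `σ_i = (1 0; iM 1)`, `g = ∑_i f|σ_i`, `T_l g = ∑_i ∑_P f|(σ_i δ_P)`. The lower left entry of `σ_i δ σ_{i'}⁻¹` is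
`M (i - i' l - i i' j M)` for `δ = (1 j; 0 l)`, divisible by `pM` if `i' l ≡ i` modulo `p`; for `δ = (l 0; 0 1)` it is `M (i l - i')`, so replace `(l 0; 0 1)` by the equivalent representative
`(u v; w x) (l 0; 0 1) = (u l, v; w l, x)` with `(u v; w x)` in `Γ₀(pM)`, `u l ≡ 1` modulo `p` (so `x ≡ l`): the entry is `≡ M (i u l - i' x) ≡ M (i - i' l)` modulo `pM`. Then `i ↦ i'` (`i' ≡ i l⁻¹`) is a permutation, and `{σ_i δ_P σ_{i'}⁻¹}_P` satisfies the hypotheses of `StN1`: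
`∑_P f|(σ_i δ_P) = ∑_P f|(σ_i δ_P σ_{i'}⁻¹)|σ_{i'} = (T_l f)|σ_{i'} = lam f|σ_{i'}`. So `g` satisfies the hypothesis of the second part of KH1. Models: CV N3 (`Pool.Agent.Helper16.CV.hN3`), W3 N3. -/
def SKN3 : Prop := ∀ (p M : ℕ) (_ : NeZero M) (_ : NeZero (p * M)) (A : ℕ)
  (f : CuspForm (G0 (p * M)) (2 * A + 2)) (g : CuspForm (G0 M) (2 * A + 2)) (l : ℕ) (lam : ℂ),
  p.Prime → p ∣ M → l.Prime → l ≠ p → HeckeEigK f l lam → ¬ l ∣ M →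
  (∀ z : ℂ, 0 < z.im →
    fzK g z = ∑ i ∈ Finset.range p, ((i * M * z + 1) ^ (2 * A + 2))⁻¹ * fzK f (z / (i * M * z + 1))) →
  HeckeEigK g l lam

/-- KN4 (from KN2, KN3, KA8). A newform of level `p^n`, `n ≥ 2`: (a) the trace to level `p^(n-1)` vanishes, (b) if the root number is `+1`, `∑_i f(z + i/p) = 0`: conjugate (a) with
`W z = -1/(p^n z)`: `W σ_i W⁻¹ z = z - i/p`, use KA8, and shift `z` (`f(z+1) = f(z)`). Models: CV N4 (`Pool.Agent.Helper36.CV.hN4`), W3 N4. -/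
def SKN4 : Prop := ∀ (p n : ℕ) (_ : NeZero (p ^ n)) (A : ℕ) (hk : 0 < (2 * A + 2 : ℤ))
  (f : CuspForm (G0 (p ^ n)) (2 * A + 2)), p.Prime → 2 ≤ n → IsNewformK p n f →
  (∀ z : ℂ, 0 < z.im → ∑ i ∈ Finset.range p, ((i * (p : ℂ) ^ (n - 1) * z + 1) ^ (2 * A + 2))⁻¹ *
    fzK f (z / (i * (p : ℂ) ^ (n - 1) * z + 1)) = 0) ∧
  (RootOneK hk f → ∀ z : ℂ, 0 < z.im → ∑ i ∈ Finset.range p, fzK f (z + i / p) = 0)

/-- KP5 (from KE, KA1b, KP1). The relation of KN4 (b) for the potentials: `∑_i p^j ∫ f(z + i/p) z^j dz = ∑_i ∫ f(w) (p w - i)^j dw`, so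
`∑_i prE f ((pX - i)^j) (z + i/p)` is constant on the upper half plane (derivative `0`), equal to `0` by KA1b; pass to the limit: the matrix is `(p i; 0 p)`. -/
def SKP5 : Prop := ∀ (N : ℕ) (_ : NeZero N) (A : ℕ) (f : CuspForm (G0 N) (2 * A + 2)) (I : ℤ → ℤ → ℕ → ℂ)
  (r : ℕ), 0 < r → IsPotK A f I → (∀ z : ℂ, 0 < z.im → ∑ i ∈ Finset.range r, fzK f (z + i / r) = 0) →
  ∀ j : ℕ, j ≤ 2 * A → ∀ p q : ℤ, (p ≠ 0 ∨ q ≠ 0) →
    ∑ i ∈ Finset.range r, pr I ((Polynomial.C (r : ℤ) * Polynomial.X - Polynomial.C (i : ℤ)) ^ j)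
      (r * p + i * q) (r * q) = 0

/-- KP6 (from KE, KP1). The relation of KN4 (a) for the potentials: `w = z/(iMz+1)`, `z = w/(1-iMw)`, `(iMz+1)^(-2A-2) z^j dz = w^j (1-iMw)^(2A-j) dw`, so
`∑_i prE f (X^j (1-iMX)^(2A-j)) (z/(iMz+1))` is constant on the upper half plane; pass to the limit. -/
def SKP6 : Prop := ∀ (N : ℕ) (_ : NeZero N) (A : ℕ) (f : CuspForm (G0 N) (2 * A + 2)) (I : ℤ → ℤ → ℕ → ℂ)
  (r : ℕ) (M : ℕ), IsPotK A f I →
  (∀ z : ℂ, 0 < z.im → ∑ i ∈ Finset.range r, ((i * M * z + 1) ^ (2 * A + 2))⁻¹ *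
    fzK f (z / (i * M * z + 1)) = 0) →
  ∀ j : ℕ, j ≤ 2 * A → ∃ C : ℂ, ∀ p q : ℤ, (p ≠ 0 ∨ q ≠ 0) →
    ∑ i ∈ Finset.range r, pr I (mp A 1 0 (-(i * M : ℤ)) 1 j) p (i * M * p + q) = C

/-- KP4 (from KP2). Fricke relation for the central potential: KP2 for `(0 -1; N 0)`, `κ = (-1)^(A+1) N^(-A-1)`, `j = A`: `mp A 0 (-1) N 0 A = (-1)^A N^A X^A`, so the factor is
`(-1)^(A+1) N^(-A-1) N (-1)^A N^A = -1`. -/
def SKP4 : Prop := ∀ (N : ℕ) (_ : NeZero N) (A : ℕ) (f : CuspForm (G0 N) (2 * A + 2)) (I : ℤ → ℤ → ℕ → ℂ),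
  IsPotK A f I →
  (∀ z : ℂ, 0 < z.im → fzK f (-1 / (N * z)) = (-1) ^ (A + 1) * (N : ℂ) ^ (A + 1) * z ^ (2 * A + 2) * fzK f z) →
  EqC (act 0 (-1) N 0 (cp I A)) (-(cp I A))

/-- KA5 (from KE, KA1b). The central value: `I 0 1 A = lim_{y→0} EK f A (iy) = -i^(A+1) ∫_0^∞ f(it) t^A dt`, which is `-i^(A+1)` times Mathlib's `Λ` at `A + 1 = k/2`
(`CuspForm.Λ_eq_mellin`), and `L = Λ * (2 / Gammaℂ s)`, the Gamma factor is not zero at `A + 1`. Model: CV A5 (`Pool.Agent.Helper94.CV.hA5`). -/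
def SKA5 : Prop := ∀ (N : ℕ) (_ : NeZero N) (A : ℕ) (hk : 0 < (2 * A + 2 : ℤ)) (f : CuspForm (G0 N) (2 * A + 2))
  (I : ℤ → ℤ → ℕ → ℂ), IsPotK A f I → LanK hk f (1 / 2) = 0 → I 0 1 A = 0

/-- The function `H(x) = ∫_0^∞ f(x+iy) y^(2A) dy`. -/
noncomputable def HK {N : ℕ} {k : ℤ} (A : ℕ) (f : CuspForm (G0 N) k) (x : ℝ) : ℂ :=
  ∫ y in Set.Ioi (0 : ℝ), fzK f (x + y * Complex.I) * (y : ℂ) ^ (2 * A)

/-- KB1. A bound for `f`: `‖f(x+iy)‖ ≤ C y^(-A-1)` (`CuspFormClass.exists_bound`) and `‖f(x+iy)‖ ≤ C exp(-2 π y)` for `y ≥ 1` (KA1b-type bound, or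
`CuspFormClass.exp_decay_atImInfty'` with some other constant `c > 0`), so `y ↦ f(x+iy) y^(2A)` is integrable on `(0,∞)` for `A ≥ 1`, dominated by a function independent of `x`, and `H` is
continuous (`MeasureTheory.continuous_of_dominated`). -/
def SKB1 : Prop := ∀ (N : ℕ) (_ : NeZero N) (A : ℕ) (f : CuspForm (G0 N) (2 * A + 2)), 1 ≤ A →
  (∃ B : ℝ → ℝ, MeasureTheory.IntegrableOn B (Set.Ioi 0) ∧
    ∀ x y : ℝ, 0 < y → ‖fzK f (x + y * Complex.I) * (y : ℂ) ^ (2 * A)‖ ≤ B y) ∧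
  Continuous (HK A f)

/-- KB2 (from KE, KA1b, KB1). The values of `H` at rational numbers: for `q > 0`
`(-1)^(A+1) i q^(2A) H(p/q) = ∑_j (2A choose j) (-p)^(2A-j) q^j I p q j`, because `∫_{i∞}^{x} f(z) (z-x)^(2A) dz = -∫_0^∞ f(x+iy) (iy)^(2A) i dy` and this is the limit `y → 0` of
`∑_j (2A choose j) (-x)^(2A-j) EK f j (x+iy)` (along `x + iy → x`: the path `(p (0 + i y') + b)/(q (0+iy') + d)` with real part `x`; for the definition of `IsPotK` use `(a b; c d) = (p, -1; q, 0)`-like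
matrices: `(p w + b)/(q w + d)` with `w = x' + iy'`, `q x' + d = 0` gives `p/q + i/(q² y')`-type points when `pd - qb = 1`; choose `x' = -d/q`). -/
def SKB2 : Prop := ∀ (N : ℕ) (_ : NeZero N) (A : ℕ) (f : CuspForm (G0 N) (2 * A + 2)) (I : ℤ → ℤ → ℕ → ℂ),
  1 ≤ A → IsPotK A f I → ∀ p q : ℤ, 0 < q →
  (-1) ^ (A + 1) * Complex.I * (q : ℂ) ^ (2 * A) * HK A f ((p : ℝ) / (q : ℝ)) =
    ∑ j ∈ Finset.range (2 * A + 1), ((2 * A).choose j : ℂ) * (-(p : ℂ)) ^ (2 * A - j) * (q : ℂ) ^ j * I p q j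

/-- KB3 (from KA1, KB1). Fourier coefficients of `H` by Fubini: `∫_0^1 H(x) e^{-2 π i m x} dx = ∫_0^∞ y^(2A) (∫_0^1 f(x+iy) e^{-2 π i m x} dx) dy`, the inner integral is `a_m e^{-2 π m y}` for
`m ≥ 0` (series, `a_0 = 0`) and `0` for `m < 0`; `∫_0^∞ y^(2A) e^{-2 π m y} dy = (2A)!/(2 π m)^(2A+1)`. Also `H(x+1) = H(x)`. -/
def SKB3 : Prop := ∀ (N : ℕ) (_ : NeZero N) (A : ℕ) (f : CuspForm (G0 N) (2 * A + 2)), 1 ≤ A →
  (∀ m : ℕ, 1 ≤ m → ∫ x in (0 : ℝ)..1, HK A f x * Complex.exp (-(2 * Real.pi * Complex.I * m * x)) =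
    fcK f m * ((2 * A).factorial / (2 * Real.pi * m) ^ (2 * A + 1) : ℝ)) ∧
  (∀ m : ℕ, 1 ≤ m → ∫ x in (0 : ℝ)..1, HK A f x * Complex.exp (2 * Real.pi * Complex.I * m * x) = 0) ∧
  (∀ x : ℝ, HK A f (x + 1) = HK A f x)

/-- KIN (from KB1, KB2, KB3, KP1). If `I p q j + (-1)^(A+j) I (-p) q j = 0` for all `j ≤ 2A` then `f = 0`. Proof: by KB2 `H(-x) = -(-1)^A H(x)` for rational `x` (for `-p/q` the sum has the terms
`(2A choose j) p^(2A-j) q^j I (-p) q j = -(-1)^(A+j) (2A choose j) p^(2A-j) q^j I p q j` and `p^(2A-j) (-1)^j = (-p)^(2A-j)`), by continuity (KB1) for all real `x` (`Rat` is dense). So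
`∫_0^1 H(x) e^{-2 π i m x} dx = -(-1)^A ∫_0^1 H(-x) e^{-2 π i m x} dx = -(-1)^A ∫_{-1}^0 H(x) e^{2 π i m x} dx`, which is `0` by the periodicity and KB3; so all coefficients vanish. -/
def SKIN : Prop := ∀ (N : ℕ) (_ : NeZero N) (A : ℕ) (f : CuspForm (G0 N) (2 * A + 2)) (I : ℤ → ℤ → ℕ → ℂ),
  1 ≤ A → IsPotK A f I →
  (∀ j : ℕ, j ≤ 2 * A → ∀ p q : ℤ, (p ≠ 0 ∨ q ≠ 0) → I p q j + (-1) ^ (A + j) * I (-p) q j = 0) →
  ∀ m : ℕ, 1 ≤ m → fcK f m = 0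

end Pool.Agent.Helper14.WK
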